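import Pool.Agent.T9h58.BSD.Lim
import Pool.Agent.TH941.Newform

/-!
# The limit points of the product of Birch and Swinnerton-Dyer

`E : y² = x³ + a x + b` is an elliptic curve over `ℚ`, `a, b ∈ ℤ`, `N_p` is the number of points modulo `p` (with
the point at infinity) and `P(x) = ∏_{p ≤ x, p ∤ 2Δ} N_p / p`.  `F` is the entire continuation of the incomplete
`L`-series and `r = ord_{s=1} F`; `f` is the newform of `E`.  `T = √2 e^{rγ} r! / |F^{(r)}(1)|` is Goldfeld's
constant, the only possible value of the constant in the original conjecture `P(x) ~ C (log x)^r` of Birch and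
Swinnerton-Dyer.

We describe the set of all limit points of `P(x) / (log x)^r` in `[0, ∞]`, unconditionally.  It is a closed
interval, and the conjecture says that it is `{T}`.

* The conjecture is always true along a sequence `x_n → ∞`, with the right constant `T`, if `F` has no real zeros
  `s > 1`; in every case some limit point is `≥ T`, so that `P(x)` is at least `(T - ε) (log x)^r` infinitely often.
* If the Riemann hypothesis fails for `F`, with a zero of real part `1 + δ`, then `P(x) > exp (x^θ)` infinitely often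
  for every `θ < δ`; if moreover there are no real zeros `s > 1`, then also `P(x) < exp (-x^θ)` infinitely often, and
  every element of `[0, ∞]` is a limit point.
-/

set_option autoImplicit false

namespace Pool.Agent.Results.MP_ad1693_nt.LimitPoints

open Filter Topology Classical CongruenceSubgroup UpperHalfPlane
open scoped MatrixGroups ENNReal

/-- `N_p`: the number of points of `y² = x³ + a x + b` modulo `p`, with the point at infinity. -/
noncomputable def numPoints (a b : ℤ) (p : ℕ) : ℕ :=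
  Nat.card {q : ZMod p × ZMod p // q.2 ^ 2 = q.1 ^ 3 + (a : ZMod p) * q.1 + (b : ZMod p)} + 1

/-- `p` is a prime that does not divide `2 Δ`, where `Δ = -4 a³ - 27 b²`. -/
def Good (a b : ℤ) (p : ℕ) : Prop :=
  p.Prime ∧ ¬ ((p : ℤ) ∣ 2 * (-4 * a ^ 3 - 27 * b ^ 2))

/-- The original Birch and Swinnerton-Dyer product `P(x) = ∏_{p ≤ x, p ∤ 2Δ} N_p / p`. -/
noncomputable def P (a b : ℤ) (x : ℝ) : ℝ :=
  ∏ p ∈ (Finset.range (⌊x⌋₊ + 1)).filter (Good a b), ((numPoints a b p : ℝ) / p)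

/-- `F` is an entire function which for `Re s > 3/2` is the incomplete `L`-series
`∏_{p ∤ 2Δ} (1 - a_p p^{-s} + p^{1-2s})⁻¹`, `a_p = p + 1 - N_p`, of `y² = x³ + a x + b`. -/
def IsLSeries (a b : ℤ) (F : ℂ → ℂ) : Prop :=
  Differentiable ℂ F ∧ ∀ s : ℂ, (3 : ℝ) / 2 < s.re →
    HasProd (fun p : ℕ => if Good a b p then
      (1 - ((p : ℂ) + 1 - (numPoints a b p : ℂ)) * (p : ℂ) ^ (-s) + (p : ℂ) ^ (1 - 2 * s))⁻¹ else 1)
      (F s)

/-- The `n`-th Fourier coefficient of `f`. -/
noncomputable def coef {N : ℕ} (f : CuspForm (Gamma0 N : Subgroup (GL (Fin 2) ℝ)) 2) (n : ℕ) : ℂ :=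
  (qExpansion 1 f).coeff n

/-- `f ∈ S_2(Γ₀(N))` is the newform of the elliptic curve `E : y² = x³ + a x + b` of conductor `N`: the
Fourier coefficients `c(n)` of `f` are real with `c(1) = 1`, they satisfy the Hecke relations
`c(mn) = c(m) c(n)` for coprime `m`, `n` and `c(p^(j+2)) = c(p) c(p^(j+1)) - p c(p^j)` (without the last
term if `p ∣ N`), `c(p) = a_p = p + 1 - N_p` for all primes `p ∤ 2Δ`, `|c(p)| ≤ 2 √p` for all
`p ∤ N` (Hasse) and `c(p) = 0, 1, -1` for `p ∣ N`. -/
structure IsNewformOf (a b : ℤ) (N : ℕ) (f : CuspForm (Gamma0 N : Subgroup (GL (Fin 2) ℝ)) 2) :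
    Prop where
  one : coef f 1 = 1
  real : ∀ n, (coef f n).im = 0
  mul : ∀ m n : ℕ, Nat.Coprime m n → coef f (m * n) = coef f m * coef f n
  pow : ∀ p j : ℕ, p.Prime → coef f (p ^ (j + 2)) = coef f p * coef f (p ^ (j + 1)) -
      (if p ∣ N then 0 else (p : ℂ) * coef f (p ^ j))
  points : ∀ p : ℕ, Good a b p → coef f p = (p : ℂ) + 1 - (numPoints a b p : ℂ)
  good : ∀ p : ℕ, p.Prime → ¬ p ∣ N → ‖coef f p‖ ≤ 2 * Real.sqrt p
  bad : ∀ p : ℕ, p.Prime → p ∣ N → coef f p = 0 ∨ coef f p = 1 ∨ coef f p = -1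

/-- Goldfeld's constant `T = √2 e^{rγ} r! / |F^{(r)}(1)|` -/
noncomputable def T (F : ℂ → ℂ) (r : ℕ) : ℝ :=
  √2 * Real.exp (r * Real.eulerMascheroniConstant) * (r.factorial : ℝ) / ‖iteratedDeriv r F 1‖

/-- `F` has no real zeros to the right of `1`. -/
def NoRealZeros (F : ℂ → ℂ) : Prop := ∀ s : ℝ, 1 < s → F s ≠ 0

/-- The limit points of `P(x) / (log x)^r`, `x → ∞`, in `[0, ∞]`: every neighbourhood contains
`P(x) / (log x)^r` for arbitrarily large `x`. -/
def limitPoints (a b : ℤ) (r : ℕ) : Set ℝ≥0∞ :=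
  {v | ∀ S ∈ 𝓝 v, ∃ᶠ x : ℝ in atTop, ENNReal.ofReal (P a b x / Real.log x ^ r) ∈ S}

/-! ### Translation to the definitions of the imported files -/

variable {a b : ℤ}

theorem P_eq : P a b = Pool.Agent.W263.BSD.bsdProduct a b := by
  funext x
  unfold P Pool.Agent.W263.BSD.bsdProduct numPoints Pool.Agent.W263.BSD.pointCount
  refine Finset.prod_congr rfl fun p _ => ?_
  push_cast
  rfl

theorem numPoints_sub (p : ℕ) : (p : ℂ) + 1 - (numPoints a b p : ℂ) =
    (p : ℂ) - (Pool.Agent.W263.BSD.pointCount a b p : ℂ) := by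
  unfold numPoints Pool.Agent.W263.BSD.pointCount
  push_cast
  ring

theorem isLSeries {F : ℂ → ℂ} (hF : IsLSeries a b F) :
    Pool.Agent.W263.BSD.IsLSeries a b F := by
  refine ⟨hF.1, fun s hs => ?_⟩
  have h := hF.2 s hs
  simp only [numPoints_sub] at h
  exact h

theorem hecke {N : ℕ} {f : CuspForm (Gamma0 N : Subgroup (GL (Fin 2) ℝ)) 2}
    (hf : IsNewformOf a b N f) : Pool.Agent.TH941.Hecke f where
  one := hf.one
  real := hf.real
  mul := hf.mul
  pow := hf.pow
  good := hf.good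
  bad := fun p hp h => by
    rcases hf.bad p hp h with h1 | h1 | h1
    · have h2 : ‖coef f p‖ ≤ 1 := by rw [h1]; simp
      exact h2
    · have h2 : ‖coef f p‖ ≤ 1 := by rw [h1]; simp
      exact h2
    · have h2 : ‖coef f p‖ ≤ 1 := by rw [h1]; simp
      exact h2

theorem hasse {N : ℕ} [NeZero N] {f : CuspForm (Gamma0 N : Subgroup (GL (Fin 2) ℝ)) 2}
    (hΔ : 4 * a ^ 3 + 27 * b ^ 2 ≠ 0) (hf : IsNewformOf a b N f) : Pool.Agent.N586.BP.Hasse a b := by
  obtain ⟨D, hD⟩ := Pool.Agent.W263.BSD.good_of_large hΔ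
  refine ⟨max D N, fun p hp h => ?_⟩
  have h1 : Good a b p := hD p hp (lt_of_le_of_lt (le_max_left _ _) h)
  have h2 : ¬ p ∣ N := fun h3 => by
    have := Nat.le_of_dvd (Nat.pos_of_ne_zero (NeZero.ne N)) h3
    have := le_max_right D N
    omega
  have h3 := hf.good p hp h2
  rw [hf.points p h1, numPoints_sub] at h3
  have h4 : ((p : ℂ) - (Pool.Agent.W263.BSD.pointCount a b p : ℂ)) =
      (((p : ℝ) - (Pool.Agent.W263.BSD.pointCount a b p : ℝ) : ℝ) : ℂ) := by push_cast; rfl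
  rw [h4, Complex.norm_real, Real.norm_eq_abs] at h3
  exact h3

theorem T_eq (F : ℂ → ℂ) (r : ℕ) : T F r = Pool.Agent.N586.BP.TT F r := by
  unfold T Pool.Agent.N586.BP.TT Pool.Agent.W263.BSD.leadAbs
  rw [div_div_eq_mul_div, mul_div_assoc', ← mul_assoc]

theorem limitPoints_eq (r : ℕ) : limitPoints a b r = Pool.Agent.T9h58.BSD.limSet a b r := by
  ext v
  unfold limitPoints Pool.Agent.T9h58.BSD.limSet Pool.Agent.T9h58.BSD.nrm
  rw [P_eq, Set.mem_setOf_eq, Set.mem_setOf_eq, mapClusterPt_iff_frequently]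

/-- **The limit points of the product of Birch and Swinnerton-Dyer.**  For every elliptic curve
`y² = x³ + a x + b` over `ℚ`, with `F` the entire continuation of its incomplete `L`-series, of order `r` at `1`:

* the conjecture `P(x) ~ C (log x)^r`, `C ≠ 0`, holds if and only if `T` is the only limit point of `P(x) / (log x)^r`;
* the limit points form a closed interval in `[0, ∞]`;
* there is a limit point `≥ T`, and `T` is a limit point if `F` has no real zeros `s > 1`;
* for every zero `s` of `F` with `Re s > 1` and all `θ < Re s - 1`, `P(x) > exp (x^θ)` for arbitrarily large `x`,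
  and `∞` is a limit point;
* if moreover `F` has no real zeros `s > 1`, then also `P(x) < exp (-x^θ)` for arbitrarily large `x`, and all
  elements of `[0, ∞]` are limit points. -/
theorem result (a b : ℤ) (hΔ : 4 * a ^ 3 + 27 * b ^ 2 ≠ 0) (F : ℂ → ℂ) (hF : IsLSeries a b F)
    (N : ℕ) [NeZero N] (f : CuspForm (Gamma0 N : Subgroup (GL (Fin 2) ℝ)) 2)
    (hf : IsNewformOf a b N f) :
    ∃ r : ℕ, analyticOrderAt F 1 = r ∧ 0 < T F r ∧
      ((∃ C : ℝ, C ≠ 0 ∧ Tendsto (fun x : ℝ => P a b x / Real.log x ^ r) atTop (𝓝 C)) ↔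
        limitPoints a b r = {ENNReal.ofReal (T F r)}) ∧
      (limitPoints a b r).Nonempty ∧ IsClosed (limitPoints a b r) ∧ (limitPoints a b r).OrdConnected ∧
      (∃ v ∈ limitPoints a b r, ENNReal.ofReal (T F r) ≤ v) ∧
      (NoRealZeros F → ENNReal.ofReal (T F r) ∈ limitPoints a b r) ∧
      (∀ s : ℂ, F s = 0 → 1 < s.re → ∞ ∈ limitPoints a b r ∧
        ∀ θ : ℝ, 0 ≤ θ → θ < s.re - 1 → ∃ᶠ x : ℝ in atTop, Real.exp (x ^ θ) < P a b x) ∧
      (NoRealZeros F → ∀ s : ℂ, F s = 0 → 1 < s.re → limitPoints a b r = Set.univ ∧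
        ∀ θ : ℝ, 0 ≤ θ → θ < s.re - 1 → ∃ᶠ x : ℝ in atTop, P a b x < Real.exp (-x ^ θ)) := by
  have hF' := isLSeries hF
  obtain ⟨r, hr⟩ := Pool.Agent.W263.BSD.order_finite hF'
  have hH := hasse hΔ hf
  have hrs : Tendsto (Pool.Agent.W263.BSD.rsSum a b) atTop (𝓝 0) :=
    (hecke hf).rsSum_tendsto hΔ fun p hp => (hf.points p hp).trans (numPoints_sub p)
  refine ⟨r, hr, ?_, ?_, ?_, ?_, ?_, ?_, ?_, ?_, ?_⟩
  · rw [T_eq]
    exact Pool.Agent.T9h58.BSD.TT_pos hF' hr
  · rw [limitPoints_eq, T_eq, P_eq]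
    exact Pool.Agent.T9h58.BSD.asy_iff hΔ hrs hH hF' hr
  · rw [limitPoints_eq]
    exact Pool.Agent.T9h58.BSD.limSet_nonempty r
  · rw [limitPoints_eq]
    exact Pool.Agent.T9h58.BSD.limSet_closed r
  · rw [limitPoints_eq]
    exact Pool.Agent.T9h58.BSD.limSet_ordConnected hH r
  · rw [limitPoints_eq, T_eq]
    exact Pool.Agent.T9h58.BSD.T_le hΔ hrs hF' hr
  · intro hne
    rw [limitPoints_eq, T_eq]
    exact Pool.Agent.T9h58.BSD.T_mem hΔ hrs hH hF' hr hne
  · intro s hs hs1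
    rw [limitPoints_eq, P_eq]
    refine ⟨Pool.Agent.T9h58.BSD.top_mem hF' r hs hs1, fun θ hθ0 hθ => ?_⟩
    refine (Pool.Agent.T9h58.BSD.omega_up hF' hs hθ0 hθ).mono fun x hx => ?_
    exact (Real.lt_log_iff_exp_lt (Pool.Agent.W263.BSD.bsdProduct_pos x)).1 hx
  · intro hne s hs hs1
    rw [limitPoints_eq, P_eq]
    refine ⟨Pool.Agent.T9h58.BSD.all_mem hH hF' hne r hs hs1, fun θ hθ0 hθ => ?_⟩
    refine (Pool.Agent.T9h58.BSD.omega_down hF' hne hs hθ0 hθ).mono fun x hx => ?_
    exact (Real.log_lt_iff_lt_exp (Pool.Agent.W263.BSD.bsdProduct_pos x)).1 hx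

end Pool.Agent.Results.MP_ad1693_nt.LimitPoints
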