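import Pool.Agent.T9h58.LN.Loc

/-!
# The log-normal law for the product of Birch and Swinnerton-Dyer in families of generic rank 0 and 1

For `E : y² = x³ + A x + B` let `P_E(x)` be the product of `N_p / p` over the primes `p ≤ x` of good reduction, `N_p` the
number of points modulo `p`, with the point at infinity. Q1 says that `P_E(x) ~ C (log x) ^ r`, `r` the analytic rank of `E`.
We find the distribution of `P_E(x)` in two families, for all `x` up to the third root of the size `N` of the family.

1. `E : y² = x³ + a x + m`, `1 ≤ m ≤ N`, with a fixed `a ≠ 0`: `log P_E(x)` is asymptotically normal with the mean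
   `(log log x) / 2` and the variance `log log x`.
2. `E : y² = x³ + m x + c²`, `1 ≤ m ≤ N`, with a fixed `c ≠ 0`, a family with the section `(0, c)` of infinite order:
   `log P_E(x)` is asymptotically normal with the mean `3 (log log x) / 2` and the variance `log log x`.

So `P_E(x)` is of the size `(log x) ^ (R + 1 / 2)` with the generic rank `R`, in agreement with the expectation that half of
the curves have the rank `R` and half the rank `R + 1`; but for half of the curves `P_E(x)` is smaller than
`(log x) ^ (R + 1 / 2)` by an unbounded factor, for half of them it is larger, and the factor has a log-normal law.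

Proof. The local factors are functions of the residue of `m` modulo `p`. Their means are `(R + 1 / 2) / p` and their
variances `1 / p`, up to `O(p ^ (-3 / 2))`; for the second family the variance is computed by means of the bound of Hasse
for the curve `y² = x³ - 4 c²`. The characteristic function of a sum over the primes below a small power of `x` is
compared with that of a sum of independent random variables (`Pool/Agent/N430/CLT`, helper430), and the mean square of
the rest is bounded. The local computations for the first family are from `Pool/Agent/R459/Bsd2.lean`.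
Author: helper58.
-/

set_option autoImplicit false

namespace Pool.Agent.Results.MP_ad1693_nt.LogNormalLaw

open Finset Real
open Pool.Agent.W263.BSD (GoodPrime pointCount)

open Classical in
/-- the product of `N_p / p` over the primes `p ≤ x` not dividing `2 (4 a³ + 27 b²)`, for `y² = x³ + a x + b`; here
`N_p` is the number `pointCount a b p` of the solutions modulo `p`, plus one for the point at infinity -/
noncomputable def bsdProduct (a b : ℤ) (x : ℕ) : ℝ :=
  ∏ p ∈ (range (x + 1)).filter (GoodPrime a b), ((pointCount a b p : ℝ) + 1) / p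

/-- the distribution function of the standard normal law -/
noncomputable def normal (t : ℝ) : ℝ := (ProbabilityTheory.gaussianReal 0 1).real (Set.Iic t)

open Classical in
/-- the share of the `1 ≤ m ≤ N` with the property `Q` -/
noncomputable def share (N : ℕ) (Q : ℕ → Prop) : ℝ := (((Icc 1 N).filter Q).card : ℝ) / N

/-- the logarithm of the product as a sum of the local functions -/
lemma log_prod (a b : ℤ) (x : ℕ) : log (bsdProduct a b x) =
    ∑ p ∈ Pool.Agent.N430.CLT.PP x, Pool.Agent.R459.Bsd.GG a p b := by
  classical
  unfold bsdProduct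
  rw [Real.log_prod]
  · have e : Pool.Agent.N430.CLT.PP x = (range (x + 1)).filter Nat.Prime := rfl
    rw [e, sum_filter, sum_filter]
    refine sum_congr rfl fun p _ => ?_
    unfold Pool.Agent.R459.Bsd.GG
    by_cases h : GoodPrime a b p
    · rw [if_pos h, if_pos h.1]
    · rw [if_neg h, ite_self]
  · intro p hp
    have h1 : (0 : ℝ) < p := by exact_mod_cast (mem_filter.1 hp).2.1.pos
    positivity

lemma prod_pos (a b : ℤ) (x : ℕ) : 0 < bsdProduct a b x := by
  classical
  unfold bsdProduct
  refine Finset.prod_pos fun p hp => ?_
  have h1 : (0 : ℝ) < p := by exact_mod_cast (mem_filter.1 hp).2.1.pos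
  positivity

lemma main (l : Pool.Agent.T9h58.LN.Loc) (A B : ℕ → ℤ)
    (hG : l.G = fun p m : ℕ => Pool.Agent.R459.Bsd.GG (A m) p (B m)) (t ε : ℝ) (hε : 0 < ε) :
    ∃ x₀ : ℕ, ∀ x N : ℕ, x₀ ≤ x → x ^ 3 ≤ N →
      |share N (fun m => bsdProduct (A m) (B m) x ≤ log x ^ l.κ * exp (t * √(log (log x)))) -
        normal t| ≤ ε := by
  classical
  obtain ⟨x₀, h⟩ := Pool.Agent.T9h58.LN.loc_clt l t hε
  refine ⟨max x₀ 3, fun x N hx hN => ?_⟩
  have key := h x N ((le_max_left _ _).trans hx) hN
  have hx3 : (3 : ℝ) ≤ x := by exact_mod_cast (le_max_right _ _).trans hx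
  have hlog : 0 < log (x : ℝ) := Real.log_pos (by linarith)
  have e : ∀ m : ℕ, (bsdProduct (A m) (B m) x ≤ log x ^ l.κ * exp (t * √(log (log x)))) ↔
      ∑ p ∈ Pool.Agent.N430.CLT.PP x, l.G p m ≤ l.κ * log (log x) + t * √(log (log x)) := by
    intro m
    rw [hG, ← log_prod (A m) (B m) x, ← Real.log_le_log_iff (prod_pos _ _ _) (by positivity),
      Real.log_mul (by positivity) (Real.exp_pos _).ne', Real.log_rpow hlog, Real.log_exp]
  unfold share normal
  simp only [e]
  exact key

/-- **The log-normal law** for the product of Birch and Swinnerton-Dyer. For all real `t` and `ε > 0`, the share of the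
curves of the family for which `P_E(x) ≤ (log x) ^ (R + 1 / 2) exp (t √(log log x))` differs from the probability of
`(-∞, t]` under the standard normal law by at most `ε`, for all `x ≥ x₀` and all `N ≥ x ^ 3`. -/
theorem result (t ε : ℝ) (hε : 0 < ε) :
    (∀ a : ℤ, a ≠ 0 → ∃ x₀ : ℕ, ∀ x N : ℕ, x₀ ≤ x → x ^ 3 ≤ N →
      |share N (fun m => bsdProduct a m x ≤ log x ^ (1 / 2 : ℝ) * exp (t * √(log (log x)))) -
        normal t| ≤ ε) ∧
    (∀ c : ℤ, c ≠ 0 → ∃ x₀ : ℕ, ∀ x N : ℕ, x₀ ≤ x → x ^ 3 ≤ N →
      |share N (fun m => bsdProduct m (c ^ 2) x ≤ log x ^ (3 / 2 : ℝ) * exp (t * √(log (log x)))) -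
        normal t| ≤ ε) := by
  constructor
  · intro a ha
    obtain ⟨l, h1, h2⟩ := Pool.Agent.T9h58.LN.loc_const ha
    have := main l (fun _ => a) (fun m => (m : ℤ)) h1 t ε hε
    rw [h2] at this
    exact this
  · intro c hc
    obtain ⟨l, h1, h2⟩ := Pool.Agent.T9h58.LN.loc_lin hc
    have := main l (fun m => (m : ℤ)) (fun _ => c ^ 2) h1 t ε hε
    rw [h2] at this
    exact this

end Pool.Agent.Results.MP_ad1693_nt.LogNormalLaw
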