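import Pool.Agent.T9h58.LN.Loc
import Pool.Agent.T9h26.BD.Tq

/-!
# Precise deviations of the product of Birch and Swinnerton-Dyer in two families

For `E : y² = x³ + A x + B` let `P_E(x)` be the product of `N_p / p` over the primes `p ≤ x` of good reduction, `N_p` the
number of points modulo `p`, with the point at infinity. Q1 says that `P_E(x) ~ C (log x) ^ r`, `r` the analytic rank of `E`.
For two families of curves we find the asymptotics of the share of the curves for which `P_E(x)` is of the exact order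
`(log x) ^ ρ`, for every real `ρ`, and of the share of the curves with a deviation from the typical order.

1. `E : y² = x³ + a x + m`, `1 ≤ m ≤ N`, with a fixed `a ≠ 0`; `κ = 1 / 2`.
2. `E : y² = x³ + m x + c²`, `1 ≤ m ≤ N`, with a fixed `c ≠ 0`; `κ = 3 / 2`. The curves have the point `(0, c)`.

For `x → ∞` and `N ≥ x ^ ((log log x) ^ 3)` and `u = ρ - κ` we show

* the share of `P_E(x) ∈ (log x) ^ ρ [e ^ α, e ^ β]` is
  `~ A(u) ∫ exp (- u s) ds / (√(2 π log log x) (log x) ^ (u ^ 2 / 2))`, the integral over `α ≤ s ≤ β`;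
* the share of `P_E(x) ≥ (log x) ^ ρ` is `~ A(u) / (u √(2 π log log x) (log x) ^ (u ^ 2 / 2))`, if `ρ > κ`;
* the share of `P_E(x) ≤ (log x) ^ ρ` is `~ A(u) / (|u| √(2 π log log x) (log x) ^ (u ^ 2 / 2))`, if `ρ < κ`.

Here `A(u) > 0` is the limit of `(log x) ^ (-(κ u + u ^ 2 / 2))` times the product over the primes `p ≤ x` of the means of
the `u`-th powers of the factors over the residues of `m` modulo `p`. For instance, in the first family the share of the
curves for which `P_E(x)` is within a constant factor of `(log x) ^ 0`, and the share of those for which it is within a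
constant factor of `log x`, are both of the exact order `(log x) ^ (- 1 / 8) / √(log log x)`.

Proof. The law of `log P_E(x)` for `m` modulo the product of the primes `p ≤ x` is tilted by `exp (u s)`. For the tilted
law a local limit theorem holds: its characteristic function at `ξ` is close to that of the normal law for small `ξ`, and
at most `exp (- ξ ^ 2 (log log x) / 8)` for `1 ≤ |ξ| ≤ √(log log x)`; the local limit theorem is deduced from the theorem
of Levy for the law with the weight `exp (- s ^ 2 / 2)`. The passage to intervals `1 ≤ m ≤ N` is by the comparison of the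
characteristic functions for `|ξ| ≤ C √(log log x)` with errors smaller than every power of `log x`, by means of the
moments of the degree of order `(log log x) ^ 2`. The local computations are those of helper58 (`Pool/Agent/T9h58/LN`),
the moments are from `Pool/Agent/N430/CLT` (helper430).
Author: helper26.
-/

set_option autoImplicit false

namespace Pool.Agent.Results.MP_ad1693_nt.PreciseDeviations

open Finset Real Filter Topology
open Pool.Agent.W263.BSD (GoodPrime pointCount)

open Classical in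
/-- the product of `N_p / p` over the primes `p ≤ x` not dividing `2 (4 a³ + 27 b²)`, for `y² = x³ + a x + b`; here
`N_p` is the number `pointCount a b p` of the solutions modulo `p`, plus one for the point at infinity -/
noncomputable def bsdProduct (a b : ℤ) (x : ℕ) : ℝ :=
  ∏ p ∈ (range (x + 1)).filter (GoodPrime a b), ((pointCount a b p : ℝ) + 1) / p

open Classical in
/-- the factor of the product at `p`: `N_p / p`, or `1` if `p` divides `2 (4 a³ + 27 b²)` -/
noncomputable def factor (a b : ℤ) (p : ℕ) : ℝ :=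
  if GoodPrime a b p then ((pointCount a b p : ℝ) + 1) / p else 1

/-- the product over the primes `p ≤ x` of the means of the `u`-th powers of the factors at `p` of the curves
`y² = x³ + a(m) x + b(m)` over `0 ≤ m < p` -/
noncomputable def localMeans (a b : ℕ → ℤ) (u : ℝ) (x : ℕ) : ℝ :=
  ∏ p ∈ (range (x + 1)).filter Nat.Prime, (∑ m ∈ range p, factor (a m) (b m) p ^ u) / p

open Classical in
/-- the share of the `1 ≤ m ≤ N` with the property `Q` -/
noncomputable def share (N : ℕ) (Q : ℕ → Prop) : ℝ := (((Icc 1 N).filter Q).card : ℝ) / N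

/-- the scale `√(2 π log log x) (log x) ^ (u ^ 2 / 2)` -/
noncomputable def scale (u : ℝ) (x : ℕ) : ℝ := √(2 * π * log (log x)) * log x ^ (u ^ 2 / 2)

/-- the precise deviations for the curves `E_m : y² = x³ + a(m) x + b(m)`, with the typical exponent `κ`: there is a
positive function `A`, `A(u)` being the limit of `localMeans a b u x / (log x) ^ (κ u + u ^ 2 / 2)`, such that for
`x → ∞`, uniformly in `N ≥ x ^ ((log log x) ^ 3)`, the share of the `m ≤ N` with the given size of `P(x)` (the product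
`bsdProduct` of `E_m`), times `scale (ρ - κ) x`, has the limit which is given -/
def PreciseLaw (a b : ℕ → ℤ) (κ : ℝ) : Prop :=
  ∃ A : ℝ → ℝ, (∀ u, 0 < A u) ∧
    (∀ u, Tendsto (fun x : ℕ => localMeans a b u x / log x ^ (κ * u + u ^ 2 / 2)) atTop (𝓝 (A u))) ∧
    (∀ ρ α β ε : ℝ, α < β → 0 < ε → ∃ x₀ : ℕ, ∀ x N : ℕ, x₀ ≤ x → (x : ℝ) ^ (log (log x)) ^ 3 ≤ N →
      |share N (fun m => log x ^ ρ * exp α ≤ bsdProduct (a m) (b m) x ∧
          bsdProduct (a m) (b m) x ≤ log x ^ ρ * exp β) * scale (ρ - κ) x -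
        A (ρ - κ) * ∫ s in α..β, exp (-(ρ - κ) * s)| < ε) ∧
    (∀ ρ ε : ℝ, κ < ρ → 0 < ε → ∃ x₀ : ℕ, ∀ x N : ℕ, x₀ ≤ x → (x : ℝ) ^ (log (log x)) ^ 3 ≤ N →
      |share N (fun m => log x ^ ρ ≤ bsdProduct (a m) (b m) x) * scale (ρ - κ) x -
        A (ρ - κ) / (ρ - κ)| < ε) ∧
    (∀ ρ ε : ℝ, ρ < κ → 0 < ε → ∃ x₀ : ℕ, ∀ x N : ℕ, x₀ ≤ x → (x : ℝ) ^ (log (log x)) ^ 3 ≤ N →
      |share N (fun m => bsdProduct (a m) (b m) x ≤ log x ^ ρ) * scale (ρ - κ) x -
        A (ρ - κ) / (κ - ρ)| < ε)

/-- the logarithm of the product as a sum of the local functions -/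
lemma log_prod (a b : ℤ) (x : ℕ) : log (bsdProduct a b x) =
    ∑ p ∈ Pool.Agent.N430.CLT.PP x, Pool.Agent.R459.Bsd.GG a p b := by
  classical
  unfold bsdProduct
  rw [Real.log_prod]
  · have e : Pool.Agent.N430.CLT.PP x = (range (x + 1)).filter Nat.Prime := rfl
    rw [e, sum_filter, sum_filter]
    refine sum_congr rfl fun p _ => ?_
    unfold Pool.Agent.R459.Bsd.GG
    by_cases h : GoodPrime a b p
    · rw [if_pos h, if_pos h.1]
    · rw [if_neg h, ite_self]
  · intro p hp
    have h1 : (0 : ℝ) < p := by exact_mod_cast (mem_filter.1 hp).2.1.pos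
    positivity

lemma prod_pos (a b : ℤ) (x : ℕ) : 0 < bsdProduct a b x := by
  classical
  unfold bsdProduct
  refine Finset.prod_pos fun p hp => ?_
  have h1 : (0 : ℝ) < p := by exact_mod_cast (mem_filter.1 hp).2.1.pos
  positivity

lemma factor_rpow (a b : ℤ) {p : ℕ} (u : ℝ) :
    factor a b p ^ u = exp (u * Pool.Agent.R459.Bsd.GG a p b) := by
  classical
  unfold factor Pool.Agent.R459.Bsd.GG
  by_cases h : GoodPrime a b p
  · rw [if_pos h, if_pos h]
    have h1 : (0 : ℝ) < p := by exact_mod_cast h.1.pos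
    rw [Real.rpow_def_of_pos (by positivity), mul_comm]
  · rw [if_neg h, if_neg h, one_rpow, mul_zero, exp_zero]

open Pool.Agent.T9h26.BD Pool.Agent.N430.CLT in
lemma main (l : Pool.Agent.T9h58.LN.Loc) (a b : ℕ → ℤ)
    (hG : l.G = fun p m : ℕ => Pool.Agent.R459.Bsd.GG (a m) p (b m)) : PreciseLaw a b l.κ := by
  classical
  choose A hA hAl using fun u : ℝ => Mx_lim l u
  have hlog : ∀ {x : ℕ}, 3 ≤ x → 0 < log (x : ℝ) := by
    intro x hx
    have hx3 : (3 : ℝ) ≤ x := by exact_mod_cast hx
    exact Real.log_pos (by linarith)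
  have hpow : ∀ {x : ℕ}, 3 ≤ x → ∀ y : ℝ, log (x : ℝ) ^ y = exp (y * ll x) := by
    intro x hx y
    rw [Real.rpow_def_of_pos (hlog hx), mul_comm]
    rfl
  have hY : ∀ (x m : ℕ) (ρ : ℝ), Yx l (ρ - l.κ) x m =
      log (bsdProduct (a m) (b m) x) - ρ * ll x := by
    intro x m ρ
    unfold Yx Sx
    rw [log_prod, hG]
    ring
  have hM : ∀ (u : ℝ) (x : ℕ), localMeans a b u x = Mx l u x := by
    intro u x
    unfold localMeans Mx Zp avgP
    have e : PP x = (range (x + 1)).filter Nat.Prime := rfl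
    rw [e]
    refine prod_congr rfl fun p _ => ?_
    congr 1
    refine sum_congr rfl fun m _ => ?_
    rw [factor_rpow, hG]
  have hscale : ∀ {x : ℕ}, 3 ≤ x → ∀ u : ℝ, scale u x = Px u x := by
    intro x hx u
    unfold scale Px
    rw [hpow hx]
    rfl
  have hshare : ∀ (N : ℕ) (Q : ℕ → Prop), share N Q = avg N (fun m => if Q m then (1 : ℝ) else 0) := by
    intro N Q
    unfold share avg
    rw [card_filter]
    push_cast
    rfl
  have hN0 : ∀ {x N : ℕ}, 3 ≤ x → (x : ℝ) ^ (ll x ^ 3) ≤ N → 0 < N := by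
    intro x N hx h
    have hx0 : (0 : ℝ) < x := by exact_mod_cast (by omega : 0 < x)
    exact_mod_cast lt_of_lt_of_le (Real.rpow_pos_of_pos hx0 _) h
  refine ⟨A, hA, fun u => ?_, fun ρ α β ε hαβ hε => ?_, fun ρ ε hρ hε => ?_, fun ρ ε hρ hε => ?_⟩
  · refine (hAl u).congr' ?_
    filter_upwards [eventually_ge_atTop 3] with x hx
    rw [hM, hpow hx, exp_neg]
    exact (div_eq_mul_inv _ _).symm
  · obtain ⟨x₀, h⟩ := unif_of_seq (b := fun x : ℕ => (x : ℝ) ^ (ll x ^ 3))
      (f := fun x N => √(2 * π * ll x) * exp ((ρ - l.κ) ^ 2 / 2 * ll x) *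
        avg N (fun m => if α ≤ Yx l (ρ - l.κ) x m ∧ Yx l (ρ - l.κ) x m ≤ β then (1 : ℝ) else 0))
      (fun N h1 h2 => fin_window l (ρ - l.κ) (hAl (ρ - l.κ)) N h1 h2 hαβ) hε
    refine ⟨max x₀ 3, fun x N hx hN => ?_⟩
    have hx3 : 3 ≤ x := (le_max_right _ _).trans hx
    have h1 := h x ((le_max_left _ _).trans hx) N (hN0 hx3 hN) hN
    have e1 : ∀ m, (log x ^ ρ * exp α ≤ bsdProduct (a m) (b m) x ∧
        bsdProduct (a m) (b m) x ≤ log x ^ ρ * exp β) ↔
        (α ≤ Yx l (ρ - l.κ) x m ∧ Yx l (ρ - l.κ) x m ≤ β) := by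
      intro m
      rw [hY, hpow hx3, ← exp_add, ← exp_add, ← Real.le_log_iff_exp_le (prod_pos _ _ _),
        ← Real.log_le_iff_le_exp (prod_pos _ _ _)]
      constructor
      · rintro ⟨c1, c2⟩
        constructor <;> linarith
      · rintro ⟨c1, c2⟩
        constructor <;> linarith
    rw [hshare, hscale hx3]
    simp only [e1]
    rw [mul_comm]
    exact h1
  · obtain ⟨x₀, h⟩ := unif_of_seq (b := fun x : ℕ => (x : ℝ) ^ (ll x ^ 3))
      (f := fun x N => Px (ρ - l.κ) x *
        avg N (fun m => if 0 ≤ Yx l (ρ - l.κ) x m then (1 : ℝ) else 0))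
      (fun N h1 h2 => fin_up l (u := ρ - l.κ) (by linarith) (hAl (ρ - l.κ)) N h1 h2) hε
    refine ⟨max x₀ 3, fun x N hx hN => ?_⟩
    have hx3 : 3 ≤ x := (le_max_right _ _).trans hx
    have h1 := h x ((le_max_left _ _).trans hx) N (hN0 hx3 hN) hN
    have e1 : ∀ m, (log x ^ ρ ≤ bsdProduct (a m) (b m) x) ↔ (0 ≤ Yx l (ρ - l.κ) x m) := by
      intro m
      rw [hY, hpow hx3, ← Real.le_log_iff_exp_le (prod_pos _ _ _)]
      constructor <;> intro c <;> linarith
    rw [hshare, hscale hx3]
    simp only [e1]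
    rw [mul_comm]
    exact h1
  · obtain ⟨x₀, h⟩ := unif_of_seq (b := fun x : ℕ => (x : ℝ) ^ (ll x ^ 3))
      (f := fun x N => Px (ρ - l.κ) x *
        avg N (fun m => if Yx l (ρ - l.κ) x m ≤ 0 then (1 : ℝ) else 0))
      (fun N h1 h2 => fin_down l (u := ρ - l.κ) (by linarith) (hAl (ρ - l.κ)) N h1 h2) hε
    refine ⟨max x₀ 3, fun x N hx hN => ?_⟩
    have hx3 : 3 ≤ x := (le_max_right _ _).trans hx
    have h1 := h x ((le_max_left _ _).trans hx) N (hN0 hx3 hN) hN
    have e1 : ∀ m, (bsdProduct (a m) (b m) x ≤ log x ^ ρ) ↔ (Yx l (ρ - l.κ) x m ≤ 0) := by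
      intro m
      rw [hY, hpow hx3, ← Real.log_le_iff_le_exp (prod_pos _ _ _)]
      constructor <;> intro c <;> linarith
    have e2 : |ρ - l.κ| = l.κ - ρ := by
      rw [abs_of_neg (by linarith : ρ - l.κ < 0)]
      ring
    rw [hshare, hscale hx3]
    simp only [e1]
    rw [e2] at h1
    rw [mul_comm]
    exact h1

/-- **Precise deviations** of the product of Birch and Swinnerton-Dyer, in the family `y² = x³ + a x + m` with a fixed
`a ≠ 0`, and in the family `y² = x³ + m x + c²` with a fixed `c ≠ 0` -/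
theorem result :
    (∀ a : ℤ, a ≠ 0 → PreciseLaw (fun _ => a) (fun m => m) (1 / 2)) ∧
    (∀ c : ℤ, c ≠ 0 → PreciseLaw (fun m => m) (fun _ => c ^ 2) (3 / 2)) := by
  constructor
  · intro a ha
    obtain ⟨l, h1, h2⟩ := Pool.Agent.T9h58.LN.loc_const ha
    have := main l (fun _ => a) (fun m => (m : ℤ)) h1
    rwa [h2] at this
  · intro c hc
    obtain ⟨l, h1, h2⟩ := Pool.Agent.T9h58.LN.loc_lin hc
    have := main l (fun m => (m : ℤ)) (fun _ => c ^ 2) h1
    rwa [h2] at this

end Pool.Agent.Results.MP_ad1693_nt.PreciseDeviations
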