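import Pool.Agent.T9h58.LN.TTr
import Pool.Agent.T9h58.LN.Crit

/-!
# The distribution of the sums of Mestre and Nagao and of the sums in the criterion for the conjecture

For `E : y² = x³ + A x + B` let `a_p = p + 1 - N_p` be the traces at the primes of good reduction. Two of the known
facts on Q1 are: Q1 for `E` is equivalent to a bound of the size `o(x log x)` for the sum `∑_{p ≤ x} a_p log p` with its
terms at the prime powers (Kuo-Murty, Conrad); and if the sums of Mestre and Nagao
`S_E(x) = (1 / log x) ∑_{p ≤ x} a_p log p / p` have a limit, then the limit is `1 / 2 - r` and Q1 holds for `E`.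

We find the distribution of both sums, and of all sums `∑_{p ≤ x} g(p) a_p` with real weights `g` which are not
dominated by few primes, in two families with `1 ≤ m ≤ N`, for `x` up to a fixed power of `N`:
`y² = x³ + a x + m` (`a ≠ 0`; put `R = 0`) and `y² = x³ + m x + c²` (`c ≠ 0`; put `R = 1`, the rank of the section
`(0, c)`).

1. `∑ g(p) a_p` is asymptotically normal with the mean `-R ∑ g(p)` and the variance `∑ g(p)² p`, as soon as
   `|g(p)| √p` is small against the standard deviation, uniformly in `g`.
2. `S_E(x)` has the limit law `N(-R, 1 / 2)`. So the sums of Mestre and Nagao separate the two families, but not well.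
3. `∑ a_p log p`, divided by the root of `∑ p (log p)²` (which is `~ x² (log x) / 2`), has the limit law `N(0, 1)`: the
   first sum is of the size `x √(log x)`, smaller than `x log x`.

Proof. `Pool/Agent/T9h58/LN/Arr.lean`: for a sum of bounded local functions the moments up to a fixed order are those of
independent variables if `N ≥ x ^ K`. `TL.lean`: the means and variances of `g(p) a_p`. `Tr.lean`, `TTr.lean` and
`Pool/Agent/R459/Bsd1.lean`: the first two moments of `a_p` in the two families; `a_p` is bounded by the theorem of Hasse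
(`Pool/Agent/H341R2/WeilSharp`). `MN.lean`: `∑ (log p)² / p = (log x)² / 2 + O(log x)`. Author: helper58.
-/

set_option autoImplicit false

namespace Pool.Agent.Results.MP_ad1693_nt.TraceSums

open Finset Real
open Pool.Agent.W263.BSD (GoodPrime pointCount)

open Classical in
/-- the trace `a_p = p + 1 - N_p` of `y² = x³ + a x + b` at the primes not dividing `2 (4 a³ + 27 b²)`, where
`N_p = pointCount a b p + 1`, and `0` at the other primes -/
noncomputable def trace (a b : ℤ) (p : ℕ) : ℝ := if GoodPrime a b p then (p : ℝ) - pointCount a b p else 0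

/-- the primes `p ≤ x` -/
def primes (x : ℕ) : Finset ℕ := (range (x + 1)).filter Nat.Prime

/-- the distribution function of the standard normal law -/
noncomputable def normal (t : ℝ) : ℝ := (ProbabilityTheory.gaussianReal 0 1).real (Set.Iic t)

open Classical in
/-- the share of the `1 ≤ m ≤ N` with the property `Q` -/
noncomputable def share (N : ℕ) (Q : ℕ → Prop) : ℝ := (((Icc 1 N).filter Q).card : ℝ) / N

/-- the standard deviation of `∑ g(p) a_p` over the primes `p ≤ x` -/
noncomputable def dev (g : ℕ → ℝ) (x : ℕ) : ℝ := √(∑ p ∈ primes x, g p ^ 2 * p)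

/-- **the normal law with general weights** in the family `y² = x³ + A(m) x + B(m)`, with the mean `-R ∑ g(p)` -/
def GeneralLaw (A B : ℕ → ℤ) (R : ℝ) : Prop :=
  ∀ t ε : ℝ, 0 < ε → ∃ η : ℝ, 0 < η ∧ ∃ K : ℕ, ∀ (x N : ℕ) (g : ℕ → ℝ), x ^ K ≤ N → 0 < dev g x →
    (∀ p ∈ primes x, |g p| * √p ≤ η * dev g x) →
      |share N (fun m => ∑ p ∈ primes x, g p * trace (A m) (B m) p ≤
        -R * ∑ p ∈ primes x, g p + t * dev g x) - normal t| ≤ ε

/-- **the law of the sums of Mestre and Nagao**: normal with the mean `-R` and the variance `1 / 2` -/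
def MestreNagaoLaw (A B : ℕ → ℤ) (R : ℝ) : Prop :=
  ∀ t ε : ℝ, 0 < ε → ∃ K x₀ : ℕ, ∀ x N : ℕ, x₀ ≤ x → x ^ K ≤ N →
    |share N (fun m => 1 / log x * ∑ p ∈ primes x, trace (A m) (B m) p * log p / p ≤
      -R + t / √2) - normal t| ≤ ε

/-- **the law of the sums in the criterion** -/
def CriterionLaw (A B : ℕ → ℤ) : Prop :=
  ∀ t ε : ℝ, 0 < ε → ∃ K x₀ : ℕ, ∀ x N : ℕ, x₀ ≤ x → x ^ K ≤ N →
    |share N (fun m => ∑ p ∈ primes x, trace (A m) (B m) p * log p ≤
      t * √(∑ p ∈ primes x, p * log p ^ 2)) - normal t| ≤ ε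

lemma main (l : Pool.Agent.T9h58.LN.TLoc) (A B : ℕ → ℤ)
    (hT : l.T = fun p m : ℕ => Pool.Agent.R459.Bsd.TT (A m) p (B m)) :
    GeneralLaw A B l.R ∧ MestreNagaoLaw A B l.R ∧ CriterionLaw A B := by
  classical
  have hT' : ∀ p m, trace (A m) (B m) p = l.T p m := fun p m => by
    rw [hT]
    rfl
  have hPP : ∀ x, primes x = Pool.Agent.N430.CLT.PP x := fun _ => rfl
  refine ⟨fun t ε hε => ?_, fun t ε hε => ?_, fun t ε hε => ?_⟩
  · obtain ⟨η, hη, K, h⟩ := Pool.Agent.T9h58.LN.tl_clt l t hε
    refine ⟨η, hη, K, fun x N g hN hσ hg => ?_⟩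
    have key := h x N g (dev g x) hN hσ (Real.sq_sqrt (sum_nonneg fun _ _ => by positivity))
      (fun p hp hpp => hg p (by rw [hPP, Pool.Agent.N430.CLT.mem_PP]; exact ⟨hp, hpp⟩))
    have e : ∀ m, (∑ p ∈ primes x, g p * trace (A m) (B m) p ≤
        -l.R * ∑ p ∈ primes x, g p + t * dev g x) ↔
        (∑ p ∈ Pool.Agent.N430.CLT.PP x, g p * l.T p m +
          l.R * ∑ p ∈ Pool.Agent.N430.CLT.PP x, g p ≤ t * dev g x) := by
      intro m
      simp only [hT', hPP]
      constructor
      · intro h; linarith
      · intro h; linarith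
    unfold share normal
    simp only [e]
    exact key
  · obtain ⟨K, x₀, h⟩ := Pool.Agent.T9h58.LN.mestre_nagao l t hε
    refine ⟨K, x₀, fun x N hx hN => ?_⟩
    have key := h x N hx hN
    have e : ∀ m p, trace (A m) (B m) p * log p / p = log p / p * l.T p m := by
      intro m p
      rw [hT']
      ring
    unfold share normal
    simp only [e, hPP]
    exact key
  · obtain ⟨K, x₀, h⟩ := Pool.Agent.T9h58.LN.crit l t hε
    refine ⟨K, x₀, fun x N hx hN => ?_⟩
    have key := h x N hx hN
    have e : ∀ m p, trace (A m) (B m) p * log p = log p * l.T p m := by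
      intro m p
      rw [hT']
      ring
    have e2 : ∀ p : ℕ, (p : ℝ) * log p ^ 2 = log p ^ 2 * p := fun p => by ring
    unfold share normal
    simp only [e, e2, hPP]
    exact key

/-- **The distribution of sums of traces** in the families `y² = x³ + a x + m` (`R = 0`) and `y² = x³ + m x + c²`
(`R = 1`): normal laws for general weights, for the sums of Mestre and Nagao and for the sums of `a_p log p`. -/
theorem result :
    (∀ a : ℤ, a ≠ 0 → GeneralLaw (fun _ => a) (fun m => m) 0 ∧
      MestreNagaoLaw (fun _ => a) (fun m => m) 0 ∧ CriterionLaw (fun _ => a) (fun m => m)) ∧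
    (∀ c : ℤ, c ≠ 0 → GeneralLaw (fun m => m) (fun _ => c ^ 2) 1 ∧
      MestreNagaoLaw (fun m => m) (fun _ => c ^ 2) 1 ∧
      CriterionLaw (fun m => m) (fun _ => c ^ 2)) := by
  constructor
  · intro a ha
    obtain ⟨l, h1, h2⟩ := Pool.Agent.T9h58.LN.tloc_const ha
    have := main l (fun _ => a) (fun m => (m : ℤ)) h1
    rw [h2] at this
    exact this
  · intro c hc
    obtain ⟨l, h1, h2⟩ := Pool.Agent.T9h58.LN.tloc_lin hc
    have := main l (fun m => (m : ℤ)) (fun _ => c ^ 2) h1
    rw [h2] at this
    exact this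

end Pool.Agent.Results.MP_ad1693_nt.TraceSums
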